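import Pool.Agent.H61.NVK.TargetsE3

set_option autoImplicit false

/-!
# NVK, part E: the cut-off function along a line (row E_HOV)
-/

open MeasureTheory Set Filter NumberField NumberField.InfinitePlace
open Pool.Agent.H65.CM4 Pool.Agent.H61.CM4 Pool.Agent.H61.NVK
open scoped Real nonZeroDivisors

namespace Pool.Agent.H60.NVE_HOV

/-- the argument of a number of the right half-plane -/
theorem arg_le {z : ℂ} (hz : 0 < z.re) : |z.arg| ≤ |z.im| / z.re := by
  have h1 : |z.arg| < π / 2 := Complex.abs_arg_lt_pi_div_two_iff.2 (Or.inl hz)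
  have h2 : |z.arg| ≤ Real.tan |z.arg| := Real.le_tan (abs_nonneg _) h1
  have h3 : Real.tan z.arg = z.im / z.re := Complex.tan_arg z
  refine h2.trans ?_
  rcases abs_choice z.arg with h | h
  · rw [h, h3]
    exact div_le_div_of_nonneg_right (le_abs_self _) hz.le
  · rw [h, Real.tan_neg, h3, ← neg_div]
    exact div_le_div_of_nonneg_right (neg_le_abs _) hz.le

/-- the sector of an exponential -/
theorem exp_sector {w : ℂ} (h : |w.im| ≤ 1 / 100) :
    0 < (Complex.exp w).re ∧ |(Complex.exp w).im| ≤ (Complex.exp w).re / 10 := by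
  have hcos : 9 / 10 ≤ Real.cos w.im := by
    have h1 := Real.one_sub_sq_div_two_le_cos (x := w.im)
    have h2 : w.im ^ 2 ≤ (1 / 100) ^ 2 := by
      rw [← sq_abs]
      exact pow_le_pow_left₀ (abs_nonneg _) h 2
    linarith
  have hsin : |Real.sin w.im| ≤ 1 / 100 := (Real.abs_sin_le_abs).trans h
  have hE := Real.exp_pos w.re
  rw [Complex.exp_re, Complex.exp_im, abs_mul, abs_of_pos hE]
  refine ⟨by positivity, ?_⟩
  nlinarith

theorem pf_HOV (hIXD : T_IXD) (hVCC : T_VCC) : T_HOV := by
  intro k _ _ _ η hη hη1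
  obtain ⟨-, hdg, hcard, -⟩ := hIXD k
  obtain ⟨V, hV1, hV2, hV3⟩ := hVCC k
  set n : ℝ := (dg k : ℝ) with hn
  have hn1 : (1 : ℝ) ≤ n := by rw [hn]; exact_mod_cast hdg
  have hn0 : 0 < n := by linarith
  set ρ : ℝ := η / (100 * n) with hρ
  have hρ0 : 0 < ρ := by positivity
  have hρη : ρ ≤ η / 100 := by
    rw [hρ, div_le_div_iff₀ (by positivity) (by norm_num)]
    nlinarith
  refine ⟨ρ, hρ0, fun B => ?_⟩
  obtain ⟨C, hC, hCB⟩ := hV3 B
  set c : ℝ := (1 / η + 1) ^ (-(n / 2)) with hc
  have hη2 : 1 ≤ 1 / η + 1 := by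
    have : 0 < 1 / η := by positivity
    linarith
  have hc0 : 0 < c := Real.rpow_pos_of_pos (by linarith) _
  have hc1 : c ≤ 1 := Real.rpow_le_one_of_one_le_of_nonpos hη2 (by linarith)
  refine ⟨C * c ^ (-(B : ℝ)), by positivity, ?_⟩
  intro p e Y x hY hx hp he
  have hY0 : 0 < Y := by linarith
  -- the factors
  have hre : ∀ s ∈ Metric.ball (0 : ℂ) ρ, ∀ v : Pl k,
      η / 2 ≤ ((p v : ℂ) + s * e v).re ∧ |((p v : ℂ) + s * e v).im| ≤ ρ ∧
      ‖(p v : ℂ) + s * e v‖ ≤ 1 / η + 1 := by
    intro s hs v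
    have hs' : ‖s‖ < ρ := by simpa using hs
    have h1 : ((p v : ℂ) + s * e v).re = p v + s.re * e v := by
      simp [Complex.add_re, Complex.mul_re]
    have h2 : ((p v : ℂ) + s * e v).im = s.im * e v := by
      simp [Complex.add_im, Complex.mul_im]
    have h3 : |s.re * e v| ≤ ρ := by
      rw [abs_mul]
      have := (Complex.abs_re_le_norm s).trans hs'.le
      nlinarith [he v, abs_nonneg (e v), abs_nonneg s.re]
    have h4 : |s.im * e v| ≤ ρ := by
      rw [abs_mul]
      have := (Complex.abs_im_le_norm s).trans hs'.le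
      nlinarith [he v, abs_nonneg (e v), abs_nonneg s.im]
    refine ⟨?_, ?_, ?_⟩
    · rw [h1]
      have := (abs_le.1 h3).1
      have := (hp v).1
      linarith
    · rw [h2]
      exact h4
    · refine (norm_add_le _ _).trans ?_
      have h5 : ‖(p v : ℂ)‖ = p v := by
        rw [Complex.norm_real, Real.norm_eq_abs, abs_of_pos (hη.trans_le (hp v).1)]
      have h6 : ‖s * (e v : ℂ)‖ ≤ 1 := by
        rw [norm_mul, Complex.norm_real, Real.norm_eq_abs]
        nlinarith [he v, abs_nonneg (e v), norm_nonneg s]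
      rw [h5]
      have := (hp v).2
      linarith
  -- the exponent
  obtain ⟨ω, hω⟩ : ∃ ω : ℂ → ℂ, ω = fun s => ((Real.log x - n / 2 * Real.log Y : ℝ) : ℂ) -
      ∑ v : Pl k, (1 / 2 : ℝ) * Complex.log ((p v : ℂ) + s * e v) := ⟨_, rfl⟩
  have hsum_n : ∀ a : ℝ, ∑ _v : Pl k, a = n * a := by
    intro a
    rw [Finset.sum_const, Finset.card_univ, hcard, nsmul_eq_mul]
  have him : ∀ s ∈ Metric.ball (0 : ℂ) ρ, |(ω s).im| ≤ 1 / 100 := by
    intro s hs
    have h1 : (ω s).im = -∑ v : Pl k, (1 / 2 : ℝ) * ((p v : ℂ) + s * e v).arg := by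
      rw [hω]
      simp only [Complex.sub_im, Complex.ofReal_im, zero_sub, Complex.im_sum]
      congr 1
      refine Finset.sum_congr rfl fun v _ => ?_
      rw [Complex.im_ofReal_mul, Complex.log_im]
    rw [h1, abs_neg]
    refine (Finset.abs_sum_le_sum_abs _ _).trans ?_
    have h2 : ∀ v : Pl k, |(1 / 2 : ℝ) * ((p v : ℂ) + s * e v).arg| ≤ 1 / (100 * n) := by
      intro v
      obtain ⟨a1, a2, -⟩ := hre s hs v
      have a3 : 0 < ((p v : ℂ) + s * e v).re := by linarith
      rw [abs_mul, abs_of_pos (by norm_num : (0 : ℝ) < 1 / 2)]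
      have a4 := arg_le a3
      have a5 : |((p v : ℂ) + s * e v).im| / ((p v : ℂ) + s * e v).re ≤ ρ / (η / 2) :=
        div_le_div₀ hρ0.le a2 (by positivity) a1
      have a6 : ρ / (η / 2) = 1 / (50 * n) := by
        rw [hρ]
        field_simp
        norm_num
      have a7 : 1 / (100 * n) = 1 / 2 * (1 / (50 * n)) := by
        field_simp
        norm_num
      rw [a7]
      have := a4.trans (a5.trans_eq a6)
      linarith
    refine (Finset.sum_le_sum fun v _ => h2 v).trans ?_
    rw [hsum_n]
    apply le_of_eq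
    field_simp
  have hdiff : DifferentiableOn ℂ ω (Metric.ball 0 ρ) := by
    intro s hs
    rw [hω]
    refine DifferentiableAt.differentiableWithinAt ?_
    refine (differentiableAt_const _).sub ?_
    refine DifferentiableAt.fun_sum fun v _ => ?_
    refine (differentiableAt_const _).mul ?_
    refine DifferentiableAt.clog (by fun_prop) ?_
    left
    have := (hre s hs v).1
    linarith
  refine ⟨fun s => V (Complex.exp (ω s)), ?_, ?_, ?_⟩
  · exact hV1.comp hdiff.cexp fun s hs => (exp_sector (him s hs)).1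
  · intro s hs
    have hsb : (s : ℂ) ∈ Metric.ball (0 : ℂ) ρ := by simpa using hs
    have hpos : ∀ v : Pl k, 0 < p v + s * e v := by
      intro v
      have := (hre s hsb v).1
      have h1 : ((p v : ℂ) + s * e v).re = p v + s * e v := by
        simp [Complex.add_re, Complex.mul_re]
      rw [h1] at this
      linarith
    have h1 : ω s = ((Real.log x - n / 2 * Real.log Y -
        ∑ v : Pl k, (1 / 2 : ℝ) * Real.log (p v + s * e v) : ℝ) : ℂ) := by
      rw [hω]
      push_cast
      congr 1
      refine Finset.sum_congr rfl fun v _ => ?_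
      rw [Complex.ofReal_log (hpos v).le]
      push_cast
      rfl
    have h2 : Real.exp (Real.log x - n / 2 * Real.log Y -
        ∑ v : Pl k, (1 / 2 : ℝ) * Real.log (p v + s * e v)) =
        x / sD (fun v => Y * (p v + s * e v)) := by
      have hprod : 0 < ∏ v : Pl k, Y * (p v + s * e v) :=
        Finset.prod_pos fun v _ => mul_pos hY0 (hpos v)
      have h3 : Real.log (sD (fun v => Y * (p v + s * e v))) =
          n / 2 * Real.log Y + ∑ v : Pl k, (1 / 2 : ℝ) * Real.log (p v + s * e v) := by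
        unfold sD
        rw [Real.log_sqrt hprod.le, Real.log_prod fun v _ => (mul_pos hY0 (hpos v)).ne']
        have h4 : ∀ v : Pl k, Real.log (Y * (p v + s * e v)) =
            Real.log Y + Real.log (p v + s * e v) := fun v =>
          Real.log_mul hY0.ne' (hpos v).ne'
        simp only [h4]
        rw [Finset.sum_add_distrib, hsum_n, ← Finset.mul_sum]
        ring
      have h5 : 0 < sD (fun v => Y * (p v + s * e v)) := Real.sqrt_pos.2 hprod
      rw [sub_sub, ← h3, Real.exp_sub, Real.exp_log hx, Real.exp_log h5]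
    have h6 : 0 < sD (fun v => Y * (p v + s * e v)) :=
      Real.sqrt_pos.2 (Finset.prod_pos fun v _ => mul_pos hY0 (hpos v))
    show V (Complex.exp (ω s)) = _
    rw [h1, ← Complex.ofReal_exp, h2, hV2 _ (div_pos hx h6)]
  · intro s hs
    obtain ⟨b1, b2⟩ := exp_sector (him s hs)
    have b3 := (hCB _ b1 b2).1
    refine b3.trans ?_
    rw [mul_assoc]
    refine mul_le_mul_of_nonneg_left ?_ hC.le
    have hre2 : Real.log x - n / 2 * Real.log Y - n / 2 * Real.log (1 / η + 1) ≤ (ω s).re := by
      have h1 : (ω s).re = Real.log x - n / 2 * Real.log Y -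
          ∑ v : Pl k, (1 / 2 : ℝ) * Real.log ‖(p v : ℂ) + s * e v‖ := by
        rw [hω]
        simp only [Complex.sub_re, Complex.ofReal_re, Complex.re_sum]
        congr 1
        refine Finset.sum_congr rfl fun v _ => ?_
        rw [Complex.re_ofReal_mul, Complex.log_re]
      rw [h1]
      have h2 : ∑ v : Pl k, (1 / 2 : ℝ) * Real.log ‖(p v : ℂ) + s * e v‖ ≤
          ∑ _v : Pl k, 1 / 2 * Real.log (1 / η + 1) := by
        refine Finset.sum_le_sum fun v _ => ?_
        obtain ⟨a1, a2, a3⟩ := hre s hs v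
        have a4 : 0 < ‖(p v : ℂ) + s * e v‖ := by
          have := Complex.re_le_norm ((p v : ℂ) + s * e v)
          linarith
        have := Real.log_le_log a4 a3
        linarith
      rw [hsum_n] at h2
      linarith
    have hnorm : c * (x / Y ^ (n / 2)) ≤ ‖Complex.exp (ω s)‖ := by
      rw [Complex.norm_exp]
      have h1 : c * (x / Y ^ (n / 2)) = Real.exp (Real.log x - n / 2 * Real.log Y -
          n / 2 * Real.log (1 / η + 1)) := by
        rw [Real.exp_sub, Real.exp_sub, Real.exp_log hx, hc,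
          Real.rpow_def_of_pos hY0, Real.rpow_def_of_pos (by linarith : 0 < 1 / η + 1)]
        rw [mul_neg, Real.exp_neg, mul_comm (Real.log Y), mul_comm (Real.log (1 / η + 1))]
        field_simp
      rw [h1]
      exact Real.exp_le_exp.2 hre2
    have ht : 0 < x / Y ^ (n / 2) := div_pos hx (Real.rpow_pos_of_pos hY0 _)
    rw [← Real.mul_rpow hc0.le (by linarith)]
    refine Real.rpow_le_rpow_of_nonpos (by positivity) ?_ (by simp)
    nlinarith

end Pool.Agent.H60.NVE_HOV
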